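import Pool.Agent.N931.PN.Stm5
import Pool.Agent.N262.PN.WW

/-!
Project PN (helper931), part WW2: wired side, faces: open crossing off the boundary (helper386; after
Pool.Agent.N262.PN.WW).
-/

set_option autoImplicit false

namespace Pool.Agent.N386.PN.WW2

open H974 H12S H389NS H984N H984P H342P Finset
open Pool.Agent.N116.EW
open Pool.Agent.N931.PN
open Pool.Agent.N262.PN.WW (sh us sh_us us_sh dsrc_dl dtgt_dl reach_sh dreach_us sd_le le_sd mem_AN
  AN_primal DI dclu_step PI exX half)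

theorem cut_primal' {A : Set Edg} {z : Vtx} {d R : ℕ} (hdR : d + 4 ≤ R) {u v : Vtx}
    (hv : (R : ℤ) ≤ sd v z) (h : Reach A u v) (hu : sd u z ≤ (d : ℤ)) :
    ∃ f g, sd f z ≤ (d : ℤ) ∧ (R : ℤ) ≤ sd g z ∧ Reach A u f ∧ Reach (A ∩ ↑(AN z d R)) f g := by
  have key : ∀ u, Reach A u v →
      (∃ f g, sd f z ≤ (d : ℤ) ∧ (R : ℤ) ≤ sd g z ∧ Reach A u f ∧
        Reach (A ∩ ↑(AN z d R)) f g) ∨
      ((d : ℤ) + 1 ≤ sd u z ∧ ∃ g, (R : ℤ) ≤ sd g z ∧ Reach (A ∩ ↑(AN z d R)) u g) := by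
    intro u hu
    induction hu using Relation.ReflTransGen.head_induction_on with
    | refl => exact Or.inr ⟨by omega, v, hv, Reach.refl _ _⟩
    | head hs _hr ih =>
      rename_i u u'
      rcases ih with ⟨f, g, h1, h2, h3, h4⟩ | ⟨h1, g, h2, h3⟩
      · exact Or.inl ⟨f, g, h1, h2, (Adj.reach hs).trans h3, h4⟩
      · obtain ⟨e, he, hc⟩ := hs
        by_cases hR : (R : ℤ) ≤ sd u z
        · exact Or.inr ⟨by omega, u, hR, Reach.refl _ _⟩
        · have hA := AN_primal (R := R) e hc h1 (by omega)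
          have hs' : Adj (A ∩ ↑(AN z d R)) u u' := ⟨e, ⟨he, hA⟩, hc⟩
          have hr : Reach (A ∩ ↑(AN z d R)) u g := hs'.reach.trans h3
          by_cases hd : sd u z ≤ (d : ℤ)
          · exact Or.inl ⟨u, g, hd, h2, Reach.refl _ _, hr⟩
          · exact Or.inr ⟨by omega, g, h2, hr⟩
  rcases key u h with h1 | ⟨h1, _⟩
  · exact h1
  · omega

/-- at a vertex of the boundary there is an edge outside of the rectangle -/
theorem bd_edge {D : Dm} {v : Vtx} (hv : D.bd v ≤ 0) : ∃ g v', PI g v v' ∧ g ∉ D.edges := by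
  unfold Dm.bd at hv
  unfold PI Dm.edges
  obtain ⟨a, b⟩ := v
  simp only at hv
  rw [min_le_iff, min_le_iff, min_le_iff] at hv
  rcases hv with (h | h) | (h | h)
  · refine ⟨(a - 1, b, true), (a - 1, b), Or.inr ⟨by simp, by simp⟩, ?_⟩
    rw [mem_RE_true]
    omega
  · refine ⟨(a, b, true), (a + 1, b), Or.inl ⟨by simp, by simp⟩, ?_⟩
    rw [mem_RE_true]
    omega
  · refine ⟨(a, b - 1, false), (a, b - 1), Or.inr ⟨by simp, by simp⟩, ?_⟩
    rw [mem_RE_false]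
    omega
  · refine ⟨(a, b, false), (a, b + 1), Or.inl ⟨by simp, by simp⟩, ?_⟩
    rw [mem_RE_false]
    omega

/-- the clusters of the annulus stay in the box -/
theorem oE_box {z : Vtx} {d R : ℕ} {F : Finset Edg} {u v : Vtx} (hu : sd u z ≤ (R : ℤ))
    (h : Reach (oE z d R F) u v) : sd v z ≤ (R : ℤ) := by
  rcases Relation.ReflTransGen.cases_tail h with h1 | ⟨v', _, g, ⟨_, hg⟩, hi⟩
  · rw [h1]
    exact hu
  · have hg' := (mem_AN.mp hg).1
    rw [sd_le]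
    unfold blk at hg'
    obtain ⟨x, y, _ | _⟩ := g
    · simp only [src_mk, tgt_false] at hi
      rw [mem_RE_false] at hg'
      rcases hi with ⟨rfl, rfl⟩ | ⟨rfl, rfl⟩ <;> simp only <;> omega
    · simp only [src_mk, tgt_true] at hi
      rw [mem_RE_true] at hg'
      rcases hi with ⟨rfl, rfl⟩ | ⟨rfl, rfl⟩ <;> simp only <;> omega

theorem main : S_WW2 := by
  intro D hD G B hG z d R ρ hN hd hdR hRρ hB hout hbad
  obtain ⟨e, heG, heF, x, y, z', hx, hyz, hxc, hyK, hzK, w, hw, hδ⟩ := hbad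
  have heE : e ∈ D.edges := hG heG
  have hew : e ∉ D.wir := fun h => heF (Or.inr h)
  have heB : e ∈ B := by
    by_contra h
    exact heF (Or.inl (Finset.mem_coe.mpr (Finset.mem_sdiff.mpr ⟨heG, h⟩)))
  have heb : e ∈ blk z d := hB heB
  have hDI : DI e y z' := by
    rcases hyz with ⟨h1, h2⟩ | ⟨h1, h2⟩
    · exact Or.inl ⟨h1.symm, h2.symm⟩
    · exact Or.inr ⟨h2.symm, h1.symm⟩
  -- the ends and the faces of `e` are close to `z`
  have hpos : (sd (src e) z ≤ (d : ℤ) ∧ sd (tgt e) z ≤ (d : ℤ)) ∧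
      sd (dsrc e) z ≤ (d : ℤ) + 1 ∧ sd (dtgt e) z ≤ (d : ℤ) + 1 := by
    rw [sd_le, sd_le, sd_le, sd_le]
    unfold blk at heb
    obtain ⟨a, b, _ | _⟩ := e
    · rw [mem_RE_false] at heb
      simp only [src_mk, tgt_false, dsrc_false, dtgt_mk]
      omega
    · rw [mem_RE_true] at heb
      simp only [src_mk, tgt_true, dsrc_true, dtgt_mk]
      omega
  obtain ⟨⟨hps, hpt⟩, hpds, hpdt⟩ := hpos
  have hy : sd y z ≤ (d : ℤ) + 1 := by
    rcases hDI with ⟨h1, h2⟩ | ⟨h1, h2⟩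
    · rw [← h1]; exact hpds
    · rw [← h2]; exact hpdt
  have hz' : sd z' z ≤ (d : ℤ) + 1 := by
    rcases hDI with ⟨h1, h2⟩ | ⟨h1, h2⟩
    · rw [← h2]; exact hpdt
    · rw [← h1]; exact hpds
  have hwz : (R : ℤ) + 3 ≤ sd w z := by
    have hw1 : (R : ℤ) + d + 4 ≤ sd z' w := by
      have : ((R + d + 4 : ℕ) : ℤ) ≤ (ρ : ℤ) := by exact_mod_cast hRρ
      push_cast at this
      omega
    rw [le_sd] at hw1
    rw [sd_le] at hz'
    rw [le_sd]
    omega
  obtain ⟨g0, hg0, hr0⟩ := hyK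
  have hyK : y ∈ D.dclu G := ⟨g0, hg0, hr0⟩
  have hg0z := hout g0 hg0
  set C2 : Set Edg := {g | g ∈ D.edges ∧ (g ∉ D.cfg G ∨
    (g ∉ D.cfg (G \ B) ∧ dsrc g ∉ D.dclu G ∧ dtgt g ∉ D.dclu G))} with hC2
  set a := z.1 - R - 1 with ha
  set b := z.1 + (R : ℤ) with hb
  set c := z.2 - R - 1 with hc
  set q := z.2 + (R : ℤ) with hq
  set F : Set Edg := (dl '' C2) ∩ ↑(RE a b c q) with hF
  have hFsub : F ⊆ ↑(RE a b c q) := Set.inter_subset_right
  have heC : e ∉ C2 := by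
    rintro ⟨_, h1 | ⟨_, h1, h2⟩⟩
    · exact h1 (Or.inl (Finset.mem_coe.mpr heG))
    · rcases hDI with ⟨h3, h4⟩ | ⟨h3, h4⟩
      · rw [h3] at h1; exact h1 hyK
      · rw [h4] at h2; exact h2 hyK
  have heF' : dl e ∉ F := by
    rintro ⟨⟨e', he', h⟩, _⟩
    rw [dl.injective h] at he'
    exact heC he'
  have hboxdl : ∀ g : Edg, g ∈ blk z R → dl g ∈ RE a b c q := by
    intro g hg
    unfold blk at hg
    obtain ⟨a1, b1, _ | _⟩ := g
    · rw [mem_RE_false] at hg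
      rw [dl_f, mem_RE_true]
      omega
    · rw [mem_RE_true] at hg
      rw [dl_t, mem_RE_false]
      omega
  have heR : dl e ∈ RE a b c q := by
    unfold blk at heb
    obtain ⟨a1, b1, _ | _⟩ := e
    · rw [mem_RE_false] at heb
      rw [dl_f, mem_RE_true]
      omega
    · rw [mem_RE_true] at heb
      rw [dl_t, mem_RE_false]
      omega
  have exitF : ∀ v u : Vtx, sd v z ≤ (d : ℤ) + 1 → DReach C2 v u → (R : ℤ) + 2 ≤ sd u z →
      ∃ w ∈ bdR a b c q, Reach F v w := by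
    intro v u hv hr hu
    rw [sd_le] at hv
    rw [le_sd] at hu
    obtain ⟨w, h1, h2, h3⟩ := first_exit (G := dl '' C2) (a := a) (b := b) (c := c) (d := q)
      (u := v) (v := u) (by unfold inR; omega) (reach_dl.mpr hr) (by omega)
    exact ⟨w, ⟨h1, h2⟩, h3⟩
  have hyb : ∃ w ∈ bdR a b c q, Reach F y w := by
    refine exitF y g0 hy (hr0.symm.mono ?_) hg0z
    rintro g ⟨h1, h2⟩
    exact ⟨h1, Or.inl h2⟩
  have hzb : ∃ w ∈ bdR a b c q, Reach F z' w := by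
    refine exitF z' w hz' (hδ.mono ?_) (by omega)
    rintro g ⟨h1, h2, h3, h4⟩
    exact ⟨h1, Or.inr ⟨h2, h3, h4⟩⟩
  have hstay : ∀ v, DReach C2 y v → v ∈ D.dclu G := by
    intro v hv
    induction hv with
    | refl => exact hyK
    | tail _ hs ih =>
      obtain ⟨g, ⟨h1, h2⟩, hi⟩ := hs
      rcases h2 with h2 | ⟨_, h2, h3⟩
      · exact dclu_step h1 h2 hi ih
      · exfalso
        rcases hi with ⟨h4, h5⟩ | ⟨h4, h5⟩
        · rw [h4] at h2; exact h2 ih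
        · rw [h5] at h3; exact h3 ih
  have hnc : ¬ Reach F y z' := by
    intro h
    exact hzK (hstay z' (reach_dl.mp (h.mono Set.inter_subset_left)))
  have hu : ∃ w ∈ bdR a b c q, Reach F (src (dl e)) w := by
    rw [src_dl]
    rcases hDI with ⟨h1, h2⟩ | ⟨h1, h2⟩
    · rw [h1]; exact hyb
    · rw [h1]; exact hzb
  have hv : ∃ w ∈ bdR a b c q, Reach F (tgt (dl e)) w := by
    rw [tgt_dl]
    rcases hDI with ⟨h1, h2⟩ | ⟨h1, h2⟩
    · rw [h2]; exact hzb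
    · rw [h2]; exact hyb
  have huv : ¬ Reach F (src (dl e)) (tgt (dl e)) := by
    rw [src_dl, tgt_dl]
    rcases hDI with ⟨h1, h2⟩ | ⟨h1, h2⟩
    · rw [h1, h2]; exact hnc
    · rw [h1, h2]; exact fun h => hnc h.symm
  have hsep := dual_sep hFsub heR heF' hu hv
  obtain ⟨p1, hp1, hr1⟩ := dual_arm hFsub heR heF' hu hv huv (Or.inl ⟨rfl, rfl⟩)
  obtain ⟨p2, hp2, hr2⟩ := dual_arm hFsub heR heF' hu hv huv (Or.inr ⟨rfl, rfl⟩)
  set E : Set Edg := {g | dl g ∈ (↑(RE a b c q) \ F) \ {dl e}} with hE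
  have hr1' : Reach E (src e) (sh p1) := by
    have := reach_sh hr1
    rwa [dsrc_dl, sh_us] at this
  have hr2' : Reach E (tgt e) (sh p2) := by
    have := reach_sh hr2
    rwa [dtgt_dl, sh_us] at this
  have hsep' : ¬ Reach E (src e) (tgt e) := by
    intro h
    apply hsep
    rw [dsrc_dl, dtgt_dl]
    exact dreach_us h
  have hE1 : ∀ g ∈ E, g ∉ (↑G : Set Edg) → g ∉ D.edges ∨ g ∈ D.wir := by
    rintro g ⟨⟨h1, h2⟩, h3⟩ hgG
    by_contra hcon
    push Not at hcon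
    apply h2
    refine ⟨⟨g, ⟨hcon.1, Or.inl ?_⟩, rfl⟩, h1⟩
    rintro (h | h)
    · exact hgG h
    · exact hcon.2 h
  have hE2 : ∀ g : Edg, dl g ∈ RE a b c q → (g ∉ D.edges ∨ g ∈ D.wir) → g ∈ E := by
    intro g h1 h2
    refine ⟨⟨h1, ?_⟩, ?_⟩
    · rintro ⟨⟨g', hg', h⟩, _⟩
      rw [dl.injective h] at hg'
      obtain ⟨h3, h4⟩ := hg'
      rcases h2 with h2 | h2
      · exact h2 h3
      · rcases h4 with h4 | ⟨h4, _⟩
        · exact h4 (Or.inr h2)
        · exact h4 (Or.inr h2)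
    · intro h
      have h' : g = e := dl.injective h
      rw [h'] at h2
      rcases h2 with h2 | h2
      · exact h2 heE
      · exact hew h2
  -- the open edges of the annulus
  have hE3 : oE z d R G ⊆ E := by
    rintro g ⟨h1, h2⟩
    have h2' := mem_AN.mp h2
    refine ⟨⟨hboxdl g h2'.1, ?_⟩, ?_⟩
    · rintro ⟨⟨g', hg', h⟩, _⟩
      rw [dl.injective h] at hg'
      obtain ⟨_, h4⟩ := hg'
      rcases h4 with h4 | ⟨h4, _⟩
      · exact h4 (Or.inl h1)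
      · refine h4 (Or.inl (Finset.mem_coe.mpr (Finset.mem_sdiff.mpr ⟨h1, fun h5 => ?_⟩)))
        exact h2'.2 (hB h5)
    · intro h
      have h' : g = e := dl.injective h
      rw [h'] at h2'
      exact h2'.2 heb
  obtain ⟨X, hX1, hX2⟩ := exX hD hN hout hE2
  have hX3 : ∀ v : Vtx, D.bd v ≤ 0 → sd v z ≤ (R : ℤ) → v ∈ X := by
    intro v hv hvz
    obtain ⟨g, v', hg, hgD⟩ := bd_edge hv
    exact hX1 g (Or.inl hgD) v v' hg hvz
  have hout' : ∀ p : Vtx, p ∈ outF a b c q → (R : ℤ) + 1 ≤ sd (sh p) z := by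
    intro p hp
    rw [le_sd]
    unfold outF at hp
    rw [Set.mem_ofPred_eq] at hp
    unfold sh
    simp only
    omega
  have hXg : ∀ g ∈ E, g ∉ (↑G : Set Edg) → ∀ v v', PI g v v' → sd v z ≤ (R : ℤ) → v ∈ X :=
    fun g hg hgG v v' hi hv => hX1 g (hE1 g hg hgG) v v' hi hv
  have fin : ∀ v0 u, sd v0 z ≤ (d : ℤ) → Reach E v0 u → (R : ℤ) + 1 ≤ sd u z →
      (∀ v ∈ X, sd v z ≤ (R : ℤ) → ¬ Reach E v0 v) → YO D z d R G := by
    intro v0 u h1 h2 h3 hno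
    rcases half hXg (by omega : sd v0 z ≤ (R : ℤ)) h2 h3 with ⟨u', h4, h5⟩ | ⟨x1, h4, h5, h6⟩
    · obtain ⟨f, g, k1, k2, k3, k4⟩ := cut_primal' hdR (by omega : (R : ℤ) ≤ sd u' z) h4 h1
      refine ⟨f, g, k1, k2, k4.mono ?_, ?_⟩
      · rintro g1 ⟨⟨_, h7⟩, h8⟩
        exact ⟨h7, h8⟩
      · intro v hv hr
        have hvz := oE_box (by omega : sd f z ≤ (R : ℤ)) hr
        refine hno v (hX3 v hv hvz) hvz ?_
        exact (k3.mono Set.inter_subset_left).trans (hr.mono hE3)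
    · exact absurd h6 (hno x1 h4 h5)
  by_cases hc1 : ∃ v ∈ X, sd v z ≤ (R : ℤ) ∧ Reach E (src e) v
  · obtain ⟨x1, h1, h2, h3⟩ := hc1
    refine fin (tgt e) (sh p2) hpt hr2' (hout' p2 hp2) ?_
    intro x2 h1' h2' h3'
    exact absurd (h3.trans ((hX2 x1 h1 x2 h1' h2 h2').trans h3'.symm)) hsep'
  · refine fin (src e) (sh p1) hps hr1' (hout' p1 hp1) ?_
    intro x1 h1 h2 h3
    exact hc1 ⟨x1, h1, h2, h3⟩

end Pool.Agent.N386.PN.WW2
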